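import Pool.Agent.H49.ZM.MOne

/-!
# [H49 ZM M0] The mean square of `BB`
-/

set_option autoImplicit false

namespace Pool.Agent.H49.ZM

open Complex Finset

theorem BB_conj {N : Finset ℕ} (hN : ∀ b ∈ N, b ≠ 0) (t : ℝ) :
    BB N (1 - (1 / 2 + I * t)) = (starRingEnd ℂ) (BB N (1 / 2 + I * t)) := by
  unfold BB
  rw [map_sum]
  refine sum_congr rfl fun b hb => ?_
  have hb0 := hN b hb
  rw [map_mul, conj_ofReal]
  congr 1
  have e1 : (-(1 - (1 / 2 + I * (t : ℂ))) : ℂ) = (((-(1 / 2) : ℝ) : ℝ) : ℂ) + I * ((t : ℝ) : ℂ) := by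
    push_cast
    ring
  have e2 : (-(1 / 2 + I * (t : ℂ)) : ℂ) = (((-(1 / 2) : ℝ) : ℝ) : ℂ) + I * ((-t : ℝ) : ℂ) := by
    push_cast
    ring
  rw [e1, e2, cpow_exp hb0, cpow_exp hb0, map_mul, conj_ofReal, ← Complex.exp_conj, map_mul,
    conj_ofReal, conj_I]
  congr 2
  push_cast
  ring

theorem BB_sq {N : Finset ℕ} (hN : ∀ b ∈ N, b ≠ 0) (t : ℝ) :
    BB N (1 / 2 + I * t) * BB N (1 - (1 / 2 + I * t)) = ((‖BB N (1 / 2 + I * t)‖ ^ 2 : ℝ) : ℂ) := by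
  rw [BB_conj hN, mul_conj, normSq_eq_norm_sq]

private theorem two_pow {a b : ℕ} (ha : a ≠ 0) (hb : b ≠ 0) (t : ℝ) :
    (a : ℂ) ^ (-(1 / 2 + I * t) : ℂ) * (b : ℂ) ^ (-(1 - (1 / 2 + I * t)) : ℂ) =
      ((((a : ℝ) ^ (-(1 / 2) : ℝ)) * ((b : ℝ) ^ (-(1 / 2) : ℝ)) : ℝ) : ℂ) *
        cexp (((t * Real.log ((b : ℝ) / a) : ℝ) : ℂ) * I) := by
  have hb0 : (0 : ℝ) < b := by exact_mod_cast Nat.pos_of_ne_zero hb
  have ha0 : (0 : ℝ) < a := by exact_mod_cast Nat.pos_of_ne_zero ha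
  have e1 : (-(1 - (1 / 2 + I * (t : ℂ))) : ℂ) = (((-(1 / 2) : ℝ) : ℝ) : ℂ) + I * ((t : ℝ) : ℂ) := by
    push_cast
    ring
  have e2 : (-(1 / 2 + I * (t : ℂ)) : ℂ) = (((-(1 / 2) : ℝ) : ℝ) : ℂ) + I * ((-t : ℝ) : ℂ) := by
    push_cast
    ring
  rw [e1, e2, cpow_exp hb, cpow_exp ha]
  have e3 : cexp (((t * Real.log ((b : ℝ) / a) : ℝ) : ℂ) * I) =
      cexp (((-t * Real.log a : ℝ) : ℂ) * I) * cexp (((t * Real.log b : ℝ) : ℂ) * I) := by
    rw [← Complex.exp_add]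
    congr 1
    rw [Real.log_div hb0.ne' ha0.ne']
    push_cast
    ring
  rw [e3]
  push_cast
  ring

theorem m_zero : ∀ (N : Finset ℕ) (Y : ℕ), Cl N Y → ∀ (T1 T2 : ℝ),
    |(∫ t in T1..T2, ‖BB N (1 / 2 + I * t)‖ ^ 2) - (T2 - T1) * ∑ b ∈ N, bet b ^ 2 / b| ≤
      4 * (Y : ℝ) ^ 3 := by
  intro N Y hN T1 T2
  have hN0 : ∀ b ∈ N, b ≠ 0 := fun b hb => (hN.1 b hb).1.ne_zero
  have hcard := card_le hN
  have hY : ∀ b ∈ N, (b : ℝ) ≤ Y := fun b hb => by exact_mod_cast (hN.1 b hb).2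
  have h1 : (((∫ t in T1..T2, ‖BB N (1 / 2 + I * t)‖ ^ 2) : ℝ) : ℂ) =
      ∑ a ∈ N, ∑ b ∈ N, ((bet a * bet b * (((a : ℝ) ^ (-(1 / 2) : ℝ)) * ((b : ℝ) ^ (-(1 / 2) : ℝ))) : ℝ) : ℂ) *
        JJ T1 T2 (Real.log ((b : ℝ) / a)) := by
    rw [← intervalIntegral.integral_ofReal]
    have e1 : ∀ t : ℝ, ((‖BB N (1 / 2 + I * t)‖ ^ 2 : ℝ) : ℂ) = ∑ a ∈ N, ∑ b ∈ N,
        ((bet a * bet b * (((a : ℝ) ^ (-(1 / 2) : ℝ)) * ((b : ℝ) ^ (-(1 / 2) : ℝ))) : ℝ) : ℂ) *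
          cexp (((t * Real.log ((b : ℝ) / a) : ℝ) : ℂ) * I) := by
      intro t
      rw [← BB_sq hN0]
      unfold BB
      rw [sum_mul_sum]
      refine sum_congr rfl fun a ha => sum_congr rfl fun b hb => ?_
      have h := two_pow (hN0 a ha) (hN0 b hb) t
      calc (bet a : ℂ) * (a : ℂ) ^ (-(1 / 2 + I * (t : ℂ))) *
            ((bet b : ℂ) * (b : ℂ) ^ (-(1 - (1 / 2 + I * (t : ℂ)))))
          = (bet a : ℂ) * (bet b : ℂ) * ((a : ℂ) ^ (-(1 / 2 + I * (t : ℂ))) *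
            (b : ℂ) ^ (-(1 - (1 / 2 + I * (t : ℂ))))) := by ring
        _ = _ := by
          rw [h]
          push_cast
          ring
    simp_rw [e1]
    rw [intervalIntegral.integral_finsetSum]
    · refine sum_congr rfl fun a _ => ?_
      rw [intervalIntegral.integral_finsetSum]
      · refine sum_congr rfl fun b _ => ?_
        rw [intervalIntegral.integral_const_mul]
        rfl
      · intro b _
        exact Continuous.intervalIntegrable (by fun_prop) _ _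
    · intro a _
      exact Continuous.intervalIntegrable (by fun_prop) _ _
  have h2 : (((T2 - T1) * ∑ b ∈ N, bet b ^ 2 / b : ℝ) : ℂ) = ∑ a ∈ N,
      ((bet a * bet a * (((a : ℝ) ^ (-(1 / 2) : ℝ)) * ((a : ℝ) ^ (-(1 / 2) : ℝ))) : ℝ) : ℂ) *
        JJ T1 T2 (Real.log ((a : ℝ) / a)) := by
    push_cast
    rw [mul_sum]
    refine sum_congr rfl fun a ha => ?_
    have ha0 : (0 : ℝ) < a := by exact_mod_cast Nat.pos_of_ne_zero (hN0 a ha)
    have e1 : (a : ℝ) ^ (-(1 / 2) : ℝ) * (a : ℝ) ^ (-(1 / 2) : ℝ) = 1 / a := by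
      rw [← Real.rpow_add ha0]
      norm_num
      rw [Real.rpow_neg_one]
    rw [div_self ha0.ne', Real.log_one, JJ_zero]
    have e2 : (((a : ℝ) ^ (-(1 / 2) : ℝ) : ℝ) : ℂ) * (((a : ℝ) ^ (-(1 / 2) : ℝ) : ℝ) : ℂ) =
        ((1 / a : ℝ) : ℂ) := by
      rw [← ofReal_mul, e1]
    rw [e2]
    push_cast
    ring
  have h3 : ((((∫ t in T1..T2, ‖BB N (1 / 2 + I * t)‖ ^ 2) - (T2 - T1) * ∑ b ∈ N, bet b ^ 2 / b) : ℝ) : ℂ) =
      ∑ a ∈ N, ∑ b ∈ N.erase a,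
        ((bet a * bet b * (((a : ℝ) ^ (-(1 / 2) : ℝ)) * ((b : ℝ) ^ (-(1 / 2) : ℝ))) : ℝ) : ℂ) *
        JJ T1 T2 (Real.log ((b : ℝ) / a)) := by
    rw [ofReal_sub, h1, h2, ← sum_sub_distrib]
    refine sum_congr rfl fun a ha => ?_
    rw [← Finset.add_sum_erase N _ ha]
    ring
  have h4 := congrArg (fun z : ℂ => ‖z‖) h3
  simp only [Complex.norm_real, Real.norm_eq_abs] at h4
  rw [h4]
  refine (norm_sum_le _ _).trans ?_
  calc ∑ a ∈ N, ‖∑ b ∈ N.erase a,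
        ((bet a * bet b * (((a : ℝ) ^ (-(1 / 2) : ℝ)) * ((b : ℝ) ^ (-(1 / 2) : ℝ))) : ℝ) : ℂ) *
        JJ T1 T2 (Real.log ((b : ℝ) / a))‖
      ≤ ∑ a ∈ N, (N.card : ℝ) * (4 * Y) := by
        refine sum_le_sum fun a ha => (norm_sum_le _ _).trans ?_
        calc ∑ b ∈ N.erase a, ‖((bet a * bet b * (((a : ℝ) ^ (-(1 / 2) : ℝ)) *
                ((b : ℝ) ^ (-(1 / 2) : ℝ))) : ℝ) : ℂ) * JJ T1 T2 (Real.log ((b : ℝ) / a))‖
            ≤ ∑ b ∈ N.erase a, 4 * (Y : ℝ) := by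
              refine sum_le_sum fun b hb => ?_
              rw [mem_erase] at hb
              have ha1 : (1 : ℝ) ≤ a := by exact_mod_cast Nat.pos_of_ne_zero (hN0 a ha)
              have hb1 : (1 : ℝ) ≤ b := by exact_mod_cast Nat.pos_of_ne_zero (hN0 b hb.2)
              have e1 : |(a : ℝ) ^ (-(1 / 2) : ℝ)| ≤ 1 := by
                rw [abs_of_nonneg (by positivity)]
                exact Real.rpow_le_one_of_one_le_of_nonpos ha1 (by norm_num)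
              have e2 : |(b : ℝ) ^ (-(1 / 2) : ℝ)| ≤ 1 := by
                rw [abs_of_nonneg (by positivity)]
                exact Real.rpow_le_one_of_one_le_of_nonpos hb1 (by norm_num)
              rw [norm_mul, Complex.norm_real, Real.norm_eq_abs, abs_mul, abs_mul, abs_mul]
              have e3 := JJ_ratio T1 T2 (hN0 b hb.2) (hN0 a ha) hb.1
              calc |bet a| * |bet b| * (|(a : ℝ) ^ (-(1 / 2) : ℝ)| * |(b : ℝ) ^ (-(1 / 2) : ℝ)|) *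
                    ‖JJ T1 T2 (Real.log ((b : ℝ) / a))‖ ≤ 1 * 1 * (1 * 1) * (4 * Y) := by
                    gcongr
                    · exact abs_bet_le a
                    · exact abs_bet_le b
                    · exact e3.trans (by
                        have := hY b hb.2
                        linarith)
                _ = 4 * Y := by ring
          _ = ((N.erase a).card : ℝ) * (4 * Y) := by rw [sum_const, nsmul_eq_mul]
          _ ≤ (N.card : ℝ) * (4 * Y) := by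
              have : ((N.erase a).card : ℝ) ≤ N.card := by exact_mod_cast Finset.card_erase_le
              gcongr
    _ = (N.card : ℝ) * ((N.card : ℝ) * (4 * Y)) := by rw [sum_const, nsmul_eq_mul]
    _ ≤ Y * (Y * (4 * Y)) := by gcongr
    _ = 4 * (Y : ℝ) ^ 3 := by ring

/-- `M1` in the form of the plan -/
theorem ff_eq {N : Finset ℕ} (hN : ∀ b ∈ N, b ≠ 0) (v t : ℝ) :
    ff N v (1 / 2 + I * t) = riemannZeta (1 / 2 + I * (t + v)) * BB N (1 / 2 + I * (t + v)) ^ 2 *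
      ((‖BB N (1 / 2 + I * t)‖ ^ 2 : ℝ) : ℂ) := by
  rw [← BB_sq hN]
  unfold ff
  have e : (1 / 2 + I * (t : ℂ) + I * v : ℂ) = 1 / 2 + I * (t + v) := by ring
  rw [e]
  ring

end Pool.Agent.H49.ZM
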