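import Pool.Agent.H49.ZM.Defs

/-!
# [H49 ZM CO] The coefficients of `ζ(s+iv) BB(s+iv)² BB(s)`

`cc N v = aZ v * (aB N v * aB N v) * aB N 0` (Dirichlet convolution), `aZ v n = n^(-iv)`,
`aB N v n = 1_N(n) bet(n) n^(-iv)`.
-/

set_option autoImplicit false

namespace Pool.Agent.H49.ZM

open Complex Finset

noncomputable def aZ (v : ℝ) : ArithmeticFunction ℂ :=
  ⟨fun n => if n = 0 then 0 else (n : ℂ) ^ (-(I * v)), by simp⟩

noncomputable def aB (N : Finset ℕ) (v : ℝ) : ArithmeticFunction ℂ :=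
  ⟨fun n => if n = 0 then 0 else if n ∈ N then (bet n : ℂ) * (n : ℂ) ^ (-(I * v)) else 0, by simp⟩

noncomputable def cc (N : Finset ℕ) (v : ℝ) : ArithmeticFunction ℂ :=
  aZ v * (aB N v * aB N v) * aB N 0

theorem aZ_apply (v : ℝ) {n : ℕ} (hn : n ≠ 0) : aZ v n = (n : ℂ) ^ (-(I * v)) := by
  show (if n = 0 then 0 else (n : ℂ) ^ (-(I * v))) = _
  rw [if_neg hn]

theorem aB_apply (N : Finset ℕ) (v : ℝ) {n : ℕ} (hn : n ≠ 0) :
    aB N v n = if n ∈ N then (bet n : ℂ) * (n : ℂ) ^ (-(I * v)) else 0 := by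
  show (if n = 0 then 0 else if n ∈ N then (bet n : ℂ) * (n : ℂ) ^ (-(I * v)) else 0) = _
  rw [if_neg hn]

theorem abs_bet_le (b : ℕ) : |bet b| ≤ 1 := by
  unfold bet
  rw [abs_pow]
  apply pow_le_one₀ (abs_nonneg _)
  rw [abs_neg, abs_of_pos (by norm_num)]
  norm_num

theorem norm_pow_I (v : ℝ) {n : ℕ} (hn : n ≠ 0) : ‖(n : ℂ) ^ (-(I * v) : ℂ)‖ = 1 := by
  rw [norm_natCast_cpow_of_pos (Nat.pos_of_ne_zero hn)]
  simp

theorem aZ_norm (v : ℝ) (n : ℕ) : ‖aZ v n‖ ≤ (ArithmeticFunction.zeta n : ℕ) := by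
  rcases eq_or_ne n 0 with rfl | hn
  · simp
  · rw [aZ_apply v hn, norm_pow_I v hn, ArithmeticFunction.zeta_apply_ne hn]
    simp

theorem aB_norm (N : Finset ℕ) (v : ℝ) (n : ℕ) : ‖aB N v n‖ ≤ (ArithmeticFunction.zeta n : ℕ) := by
  rcases eq_or_ne n 0 with rfl | hn
  · simp
  · rw [aB_apply N v hn, ArithmeticFunction.zeta_apply_ne hn]
    split_ifs
    · rw [norm_mul, norm_pow_I v hn, Complex.norm_real, Real.norm_eq_abs]
      have := abs_bet_le n
      simpa using this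
    · simp

private theorem co_norm_mul {f g : ArithmeticFunction ℂ} {F G : ArithmeticFunction ℕ}
    (hf : ∀ n, ‖f n‖ ≤ (F n : ℕ)) (hg : ∀ n, ‖g n‖ ≤ (G n : ℕ)) (n : ℕ) :
    ‖(f * g) n‖ ≤ ((F * G) n : ℕ) := by
  rw [ArithmeticFunction.mul_apply, ArithmeticFunction.mul_apply]
  push_cast
  refine (norm_sum_le _ _).trans (Finset.sum_le_sum fun x _ => ?_)
  rw [norm_mul]
  exact mul_le_mul (hf _) (hg _) (norm_nonneg _) (Nat.cast_nonneg _)

private noncomputable def coK : ArithmeticFunction ℕ :=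
  ArithmeticFunction.zeta * (ArithmeticFunction.zeta * ArithmeticFunction.zeta) * ArithmeticFunction.zeta

private noncomputable def coZ : ArithmeticFunction ℂ := (ArithmeticFunction.zeta : ArithmeticFunction ℕ)

private theorem coZ_apply (n : ℕ) : coZ n = if n = 0 then 0 else 1 := by
  unfold coZ
  rw [ArithmeticFunction.natCoe_apply, ArithmeticFunction.zeta_apply]
  split_ifs <;> simp

private theorem coZ_norm (n : ℕ) : ‖coZ n‖ ≤ (ArithmeticFunction.zeta n : ℕ) := by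
  rcases eq_or_ne n 0 with rfl | hn
  · simp
  · rw [coZ_apply, if_neg hn, ArithmeticFunction.zeta_apply_ne hn]
    simp

private theorem coK_cast : (coK : ArithmeticFunction ℂ) = coZ * (coZ * coZ) * coZ := by
  unfold coK coZ
  push_cast
  rfl

theorem co_sum (f : ArithmeticFunction ℂ) {s : ℂ} (hs : 1 < s.re)
    (hf : ∀ n, ‖f n‖ ≤ (ArithmeticFunction.zeta n : ℕ)) : LSeriesSummable (fun n => f n) s := by
  refine LSeriesSummable_of_bounded_of_one_lt_re (m := 1) (fun n hn => ?_) hs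
  refine (hf n).trans ?_
  rw [ArithmeticFunction.zeta_apply_ne hn]
  simp

private theorem coZ_L {s : ℂ} (hs : 1 < s.re) : LSeries (fun n => coZ n) s = riemannZeta s := by
  rw [← ArithmeticFunction.LSeries_zeta_eq_riemannZeta hs]
  refine LSeries_congr (fun {n} hn => ?_) s
  rw [coZ_apply, if_neg hn, ArithmeticFunction.zeta_apply_ne hn]
  simp

private theorem aZ_L (v : ℝ) {s : ℂ} (hs : 1 < s.re) :
    LSeries (fun n => aZ v n) s = riemannZeta (s + I * v) := by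
  have hs' : 1 < (s + I * v).re := by simpa using hs
  rw [← coZ_L hs']
  unfold LSeries
  refine tsum_congr fun n => ?_
  rcases eq_or_ne n 0 with rfl | hn
  · simp
  · rw [LSeries.term_of_ne_zero hn, LSeries.term_of_ne_zero hn, aZ_apply v hn, coZ_apply, if_neg hn]
    have hn' : (n : ℂ) ≠ 0 := by exact_mod_cast hn
    rw [cpow_add _ _ hn', cpow_neg]
    have h3 : (n : ℂ) ^ s ≠ 0 := by simp [cpow_eq_zero_iff, hn']
    have h4 : (n : ℂ) ^ (I * v) ≠ 0 := by simp [cpow_eq_zero_iff, hn']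
    field_simp

private theorem aB_L (N : Finset ℕ) (hN : ∀ b ∈ N, b ≠ 0) (v : ℝ) (s : ℂ) :
    LSeries (fun n => aB N v n) s = BB N (s + I * v) := by
  unfold LSeries BB
  rw [tsum_eq_sum (s := N)]
  · refine Finset.sum_congr rfl fun n hn => ?_
    have hn0 := hN n hn
    have hn' : (n : ℂ) ≠ 0 := by exact_mod_cast hn0
    rw [LSeries.term_of_ne_zero hn0, aB_apply N v hn0, if_pos hn, neg_add, cpow_add _ _ hn',
      cpow_neg n s]
    ring
  · intro n hn
    rcases eq_or_ne n 0 with rfl | hn0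
    · simp
    · rw [LSeries.term_of_ne_zero hn0, aB_apply N v hn0, if_neg hn, zero_div]

/-- the bound for the coefficients -/
theorem cc_bound : ∃ K : ℝ, 0 < K ∧ ∀ (N : Finset ℕ) (v : ℝ),
    (Summable fun n : ℕ => ‖cc N v n‖ * ((n : ℝ) ^ 2)⁻¹) ∧
    (∑' n : ℕ, ‖cc N v n‖ * ((n : ℝ) ^ 2)⁻¹ ≤ K) := by
  refine ⟨16, by norm_num, fun N v => ?_⟩
  have hf : ∀ n, ‖cc N v n‖ ≤ (coK n : ℕ) := fun n => by
    unfold cc coK
    exact co_norm_mul (co_norm_mul (aZ_norm v) (co_norm_mul (aB_norm N v) (aB_norm N v)))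
      (aB_norm N 0) n
  have h2 : 1 < (2 : ℂ).re := by norm_num
  have hZ := co_sum coZ h2 coZ_norm
  have hZZ := ArithmeticFunction.LSeriesSummable_mul hZ hZ
  have hZ3 := ArithmeticFunction.LSeriesSummable_mul hZ hZZ
  have hK : LSeriesSummable (fun n => (coZ * (coZ * coZ) * coZ) n) 2 :=
    ArithmeticFunction.LSeriesSummable_mul hZ3 hZ
  have hval : LSeries (fun n => (coZ * (coZ * coZ) * coZ) n) 2 = riemannZeta 2 ^ 4 := by
    rw [ArithmeticFunction.LSeries_mul' hZ3 hZ, ArithmeticFunction.LSeries_mul' hZ hZZ,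
      ArithmeticFunction.LSeries_mul' hZ hZ, coZ_L h2]
    ring
  have hterm : ∀ n : ℕ, LSeries.term (fun n => (coZ * (coZ * coZ) * coZ) n) 2 n =
      (((coK n : ℝ) * ((n : ℝ) ^ 2)⁻¹ : ℝ) : ℂ) := by
    intro n
    rcases eq_or_ne n 0 with rfl | hn
    · simp
    · rw [LSeries.term_of_ne_zero hn]
      have h3 : (coZ * (coZ * coZ) * coZ) n = ((coK n : ℕ) : ℂ) := by
        rw [← coK_cast, ArithmeticFunction.natCoe_apply]
      rw [h3]
      push_cast
      rw [div_eq_mul_inv]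
      congr 2
      norm_num
  have hKs : Summable fun n : ℕ => (coK n : ℝ) * ((n : ℝ) ^ 2)⁻¹ := by
    have h3 : Summable fun n : ℕ => (((coK n : ℝ) * ((n : ℝ) ^ 2)⁻¹ : ℝ) : ℂ) := by
      refine hK.congr fun n => ?_
      exact hterm n
    exact Complex.summable_ofReal.1 h3
  have hKt : (∑' n : ℕ, (coK n : ℝ) * ((n : ℝ) ^ 2)⁻¹) = (Real.pi ^ 2 / 6) ^ 4 := by
    have h3 : ((∑' n : ℕ, (coK n : ℝ) * ((n : ℝ) ^ 2)⁻¹ : ℝ) : ℂ) = riemannZeta 2 ^ 4 := by
      rw [Complex.ofReal_tsum, ← hval]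
      unfold LSeries
      exact tsum_congr fun n => (hterm n).symm
    rw [riemannZeta_two] at h3
    exact_mod_cast h3
  have hle : ∀ n : ℕ, ‖cc N v n‖ * ((n : ℝ) ^ 2)⁻¹ ≤ (coK n : ℝ) * ((n : ℝ) ^ 2)⁻¹ := fun n =>
    mul_le_mul_of_nonneg_right (hf n) (by positivity)
  have hs : Summable fun n : ℕ => ‖cc N v n‖ * ((n : ℝ) ^ 2)⁻¹ :=
    Summable.of_nonneg_of_le (fun n => by positivity) hle hKs
  refine ⟨hs, (hs.tsum_le_tsum hle hKs).trans ?_⟩
  rw [hKt]
  have hpi := Real.pi_lt_d2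
  have hpi0 := Real.pi_pos
  have h6 : Real.pi ^ 2 / 6 ≤ 2 := by nlinarith
  calc (Real.pi ^ 2 / 6) ^ 4 ≤ 2 ^ 4 := pow_le_pow_left₀ (by positivity) h6 4
    _ = 16 := by norm_num

/-- the Dirichlet series of the coefficients -/
theorem cc_series (N : Finset ℕ) (hN : ∀ b ∈ N, b ≠ 0) (v : ℝ) (s : ℂ) (hs : 1 < s.re) :
    riemannZeta (s + I * v) * BB N (s + I * v) ^ 2 * BB N s =
      ∑' n : ℕ, cc N v n * (n : ℂ) ^ (-s) := by
  have hZ := co_sum (aZ v) hs (aZ_norm v)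
  have hB := co_sum (aB N v) hs (aB_norm N v)
  have hB0 := co_sum (aB N 0) hs (aB_norm N 0)
  have hBB := ArithmeticFunction.LSeriesSummable_mul hB hB
  have hZB := ArithmeticFunction.LSeriesSummable_mul hZ hBB
  have h1 : LSeries (fun n => cc N v n) s =
      riemannZeta (s + I * v) * BB N (s + I * v) ^ 2 * BB N s := by
    unfold cc
    rw [ArithmeticFunction.LSeries_mul' hZB hB0, ArithmeticFunction.LSeries_mul' hZ hBB,
      ArithmeticFunction.LSeries_mul' hB hB, aZ_L v hs, aB_L N hN v, aB_L N hN 0,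
      ofReal_zero, mul_zero, add_zero]
    ring
  rw [← h1]
  unfold LSeries
  refine tsum_congr fun n => ?_
  exact LSeries.term_def₀ (by simp) _ _

end Pool.Agent.H49.ZM
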