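import Mathlib

/-!
# [H49 ZM] Chapter M of ZT (MP_925da8_nt): the moments `M0` and `M1`

`bet b = (-1/2)^(ω(b))`, `BB N s = Σ_{b ∈ N} bet(b) b^(-s)`, `Cl N`: `N` is a set of squarefree numbers
closed under divisors.
-/

set_option autoImplicit false

namespace Pool.Agent.H49.ZM

open Finset

/-- `(-1/2)^(ω(b))` -/
noncomputable def bet (b : ℕ) : ℝ := (-(1 / 2) : ℝ) ^ b.primeFactors.card

/-- the Dirichlet polynomial -/
noncomputable def BB (N : Finset ℕ) (s : ℂ) : ℂ := ∑ b ∈ N, (bet b : ℂ) * (b : ℂ) ^ (-s)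

/-- squarefree numbers, closed under divisors, at most `Y` -/
def Cl (N : Finset ℕ) (Y : ℕ) : Prop :=
  (∀ b ∈ N, Squarefree b ∧ b ≤ Y) ∧ ∀ b ∈ N, ∀ d : ℕ, d ∣ b → d ∈ N

end Pool.Agent.H49.ZM
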