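import Pool.Agent.H49.ZM.Co

/-!
# [H49 ZM ID] The convolution identity `cc N v m = bet m` for `m ∈ N`

PROOF. All functions are multiplicative, at a prime `p`: `p^(-iv) - p^(-iv)/2 - p^(-iv)/2 - 1/2 = -1/2`.
-/

set_option autoImplicit false

namespace Pool.Agent.H49.ZM

open Complex Finset

private noncomputable def aF (v : ℝ) : ArithmeticFunction ℂ :=
  ⟨fun n => if n = 0 then 0 else (bet n : ℂ) * (n : ℂ) ^ (-(I * v)), by simp⟩

private theorem aF_apply (v : ℝ) {n : ℕ} (hn : n ≠ 0) :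
    aF v n = (bet n : ℂ) * (n : ℂ) ^ (-(I * v)) := by
  show (if n = 0 then 0 else (bet n : ℂ) * (n : ℂ) ^ (-(I * v))) = _
  rw [if_neg hn]

theorem bet_one : bet 1 = 1 := by
  unfold bet
  simp

theorem bet_mul {m n : ℕ} (h : m.Coprime n) : bet (m * n) = bet m * bet n := by
  unfold bet
  rw [h.primeFactors_mul, card_union_of_disjoint h.disjoint_primeFactors, pow_add]

theorem bet_prime {p : ℕ} (hp : p.Prime) : bet p = -(1 / 2) := by
  unfold bet
  rw [hp.primeFactors]
  simp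

private theorem pow_mul' (v : ℝ) {m n : ℕ} :
    ((m * n : ℕ) : ℂ) ^ (-(I * v)) = (m : ℂ) ^ (-(I * v)) * (n : ℂ) ^ (-(I * v)) := by
  rw [Nat.cast_mul, ← natCast_mul_natCast_cpow]

private theorem aZ_mult (v : ℝ) : (aZ v).IsMultiplicative := by
  refine ⟨by rw [aZ_apply v one_ne_zero]; simp, ?_⟩
  intro m n h
  rcases eq_or_ne m 0 with rfl | hm
  · simp
  rcases eq_or_ne n 0 with rfl | hn
  · simp
  rw [aZ_apply v (mul_ne_zero hm hn), aZ_apply v hm, aZ_apply v hn, pow_mul']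

private theorem aF_mult (v : ℝ) : (aF v).IsMultiplicative := by
  refine ⟨by rw [aF_apply v one_ne_zero, bet_one]; simp, ?_⟩
  intro m n h
  rcases eq_or_ne m 0 with rfl | hm
  · simp
  rcases eq_or_ne n 0 with rfl | hn
  · simp
  rw [aF_apply v (mul_ne_zero hm hn), aF_apply v hm, aF_apply v hn, pow_mul', bet_mul h]
  push_cast
  ring

private theorem mul_prime {f g : ArithmeticFunction ℂ} (hf : f 1 = 1) (hg : g 1 = 1) {p : ℕ}
    (hp : p.Prime) : (f * g) p = f p + g p := by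
  rw [ArithmeticFunction.mul_apply, Nat.sum_divisorsAntidiagonal (fun x y => f x * g y),
    hp.sum_divisors, Nat.div_self hp.pos, Nat.div_one, hf, hg]
  ring

private theorem conv_id (v : ℝ) (m : ℕ) (hm : Squarefree m) :
    (aZ v * (aF v * aF v) * aF 0) m = bet m := by
  have h1 := aZ_mult v
  have h2 := aF_mult v
  have h3 := aF_mult 0
  have h22 := h2.mul h2
  have h122 := h1.mul h22
  have h := h122.mul h3
  rw [← h.prod_primeFactors hm]
  have e : ∀ p ∈ m.primeFactors, (aZ v * (aF v * aF v) * aF 0) p = ((-(1 / 2) : ℝ) : ℂ) := by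
    intro p hp
    have hpp := Nat.prime_of_mem_primeFactors hp
    rw [mul_prime h122.1 h3.1 hpp, mul_prime h1.1 h22.1 hpp, mul_prime h2.1 h2.1 hpp,
      aZ_apply v hpp.ne_zero, aF_apply v hpp.ne_zero, aF_apply 0 hpp.ne_zero, bet_prime hpp]
    simp
    ring
  rw [prod_congr rfl e, prod_const]
  unfold bet
  push_cast
  rfl

private theorem mul_congr {f g f' g' : ArithmeticFunction ℂ} {m : ℕ}
    (hf : ∀ d, d ∣ m → f d = f' d) (hg : ∀ d, d ∣ m → g d = g' d) : (f * g) m = (f' * g') m := by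
  rw [ArithmeticFunction.mul_apply, ArithmeticFunction.mul_apply]
  refine Finset.sum_congr rfl fun x hx => ?_
  rw [Nat.mem_divisorsAntidiagonal] at hx
  rw [hf x.1 ⟨x.2, hx.1.symm⟩, hg x.2 ⟨x.1, by rw [mul_comm]; exact hx.1.symm⟩]

/-- the coefficient of `m ∈ N` -/
theorem cc_id {N : Finset ℕ} {Y : ℕ} (hN : Cl N Y) (v : ℝ) {m : ℕ} (hm : m ∈ N) :
    cc N v m = bet m := by
  have hsq := (hN.1 m hm).1
  have hm0 : m ≠ 0 := hsq.ne_zero
  rw [← conv_id v m hsq]
  unfold cc
  have hB : ∀ (w : ℝ) (d : ℕ), d ∣ m → aB N w d = aF w d := by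
    intro w d hd
    have hd0 : d ≠ 0 := by
      rintro rfl
      exact hm0 (Nat.eq_zero_of_zero_dvd hd)
    rw [aB_apply N w hd0, if_pos (hN.2 m hm d hd), aF_apply w hd0]
  refine mul_congr (fun d hd => mul_congr (fun _ _ => rfl) fun e he => mul_congr
    (fun k hk => ?_) (fun k hk => ?_)) (hB 0)
  · exact hB v k (hk.trans (he.trans hd))
  · exact hB v k (hk.trans (he.trans hd))

end Pool.Agent.H49.ZM
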