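import Pool.Agent.H43.LF.Lap

/-!
# [H49 ZM ZB] The trivial bound for zeta: `‖ζ(s)‖ ≤ C (Im s)^(1/2)` for `1/2 ≤ Re s ≤ 4`, `Im s ≥ 2`

PROOF. `H43.LF.lap` with the trivial character mod 1 and `M = ⌈Im s⌉`:
`|ζ(s)| ≤ Σ_{n ≤ M} n^(-1/2) + M^(1/2)/Im s + 8 |s| M^(-1/2) ≤ 2 M^(1/2) + ...`.
-/

set_option autoImplicit false

namespace Pool.Agent.H49.ZM

open Complex Finset

private theorem zb_sum (M : ℕ) : ∑ n ∈ Icc 1 M, (n : ℝ) ^ (-(1 / 2) : ℝ) ≤ 2 * (M : ℝ) ^ (1 / 2 : ℝ) := by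
  induction M with
  | zero => simp
  | succ m ih =>
    rw [Finset.sum_Icc_succ_top (by omega)]
    have hm : (0 : ℝ) < ((m + 1 : ℕ) : ℝ) := by positivity
    obtain ⟨u, hu⟩ : ∃ u : ℝ, u = ((m + 1 : ℕ) : ℝ) ^ (1 / 2 : ℝ) := ⟨_, rfl⟩
    obtain ⟨v, hv⟩ : ∃ v : ℝ, v = (m : ℝ) ^ (1 / 2 : ℝ) := ⟨_, rfl⟩
    have hu0 : 0 < u := by rw [hu]; positivity
    have hv0 : 0 ≤ v := by rw [hv]; positivity
    have hu2 : u ^ 2 = m + 1 := by
      rw [hu, ← Real.rpow_natCast, ← Real.rpow_mul hm.le]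
      norm_num
    have hv2 : v ^ 2 = m := by
      rw [hv, ← Real.rpow_natCast, ← Real.rpow_mul (Nat.cast_nonneg m)]
      norm_num
    have e1 : ((m + 1 : ℕ) : ℝ) ^ (-(1 / 2) : ℝ) = 1 / u := by
      rw [Real.rpow_neg hm.le, ← hu, one_div]
    rw [e1, ← hu]
    rw [← hv] at ih
    have h1 : 1 / u ≤ 2 * u - 2 * v := by
      rw [div_le_iff₀ hu0]
      nlinarith [sq_nonneg (u - v)]
    linarith

theorem zeta_half : ∃ C : ℝ, 0 < C ∧ ∀ s : ℂ, 1 / 2 ≤ s.re → s.re ≤ 4 → 2 ≤ s.im →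
    ‖riemannZeta s‖ ≤ C * s.im ^ (1 / 2 : ℝ) := by
  refine ⟨40, by norm_num, fun s h1 h4 h2 => ?_⟩
  have him : (0 : ℝ) < s.im := by linarith
  have hre : (0 : ℝ) < s.re := by linarith
  have hs1 : s ≠ 1 := by
    intro h
    rw [h, one_im] at h2
    norm_num at h2
  set M : ℕ := ⌈s.im⌉₊ with hM
  have hM1 : 1 ≤ M := Nat.one_le_ceil_iff.2 him
  have hMl : s.im ≤ M := Nat.le_ceil _
  have hMu : (M : ℝ) ≤ 2 * s.im := by
    have := Nat.ceil_lt_add_one him.le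
    linarith
  have hM0 : (0 : ℝ) < M := by linarith
  have h := Pool.Agent.H43.LF.lap (1 : DirichletCharacter ℂ 1) s hre hs1 M hM1
  rw [DirichletCharacter.LFunction_modOne_eq] at h
  have hr : |Pool.Agent.H43.LF.rho (1 : DirichletCharacter ℂ 1)| ≤ 1 := by
    unfold Pool.Agent.H43.LF.rho
    simp
  have hx : ∀ n ∈ Icc 1 M, ‖(1 : DirichletCharacter ℂ 1) n * (n : ℂ) ^ (-s)‖ ≤
      (n : ℝ) ^ (-(1 / 2) : ℝ) := by
    intro n hn
    rw [mem_Icc] at hn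
    have hn1 : (1 : ℝ) ≤ n := by exact_mod_cast hn.1
    rw [norm_mul, norm_natCast_cpow_of_pos (by omega)]
    have e1 : ‖(1 : DirichletCharacter ℂ 1) n‖ ≤ 1 := DirichletCharacter.norm_le_one _ _
    have e2 : (n : ℝ) ^ (-s).re ≤ (n : ℝ) ^ (-(1 / 2) : ℝ) := by
      apply Real.rpow_le_rpow_of_exponent_le hn1
      rw [neg_re]
      linarith
    calc _ ≤ 1 * (n : ℝ) ^ (-(1 / 2) : ℝ) := mul_le_mul e1 e2 (by positivity) zero_le_one
      _ = _ := one_mul _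
  have hS : ‖∑ n ∈ Icc 1 M, (1 : DirichletCharacter ℂ 1) n * (n : ℂ) ^ (-s)‖ ≤
      2 * (M : ℝ) ^ (1 / 2 : ℝ) :=
    (norm_sum_le_of_le _ hx).trans (zb_sum M)
  have hm : s.im ≤ ‖s - 1‖ := by
    have := Complex.abs_im_le_norm (s - 1)
    rw [sub_im, one_im, sub_zero, abs_of_pos him] at this
    exact this
  have hn : ‖s‖ ≤ 3 * s.im := by
    have := Complex.norm_le_abs_re_add_abs_im s
    rw [abs_of_pos hre, abs_of_pos him] at this
    linarith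
  obtain ⟨u, hu⟩ : ∃ u : ℝ, u = s.im ^ (1 / 2 : ℝ) := ⟨_, rfl⟩
  have hu0 : 0 < u := by rw [hu]; positivity
  have hu2 : u ^ 2 = s.im := by
    rw [hu, ← Real.rpow_natCast, ← Real.rpow_mul him.le]
    norm_num
  have hu1 : 1 ≤ u := by nlinarith
  have hMs : (M : ℝ) ^ (1 / 2 : ℝ) ≤ 2 * u := by
    have e1 : (M : ℝ) ^ (1 / 2 : ℝ) ≤ (4 * s.im) ^ (1 / 2 : ℝ) :=
      Real.rpow_le_rpow hM0.le (by linarith) (by norm_num)
    have e2 : (4 * s.im) ^ (1 / 2 : ℝ) = 2 * u := by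
      rw [Real.mul_rpow (by norm_num) him.le, hu]
      congr 1
      rw [show (4 : ℝ) = 2 ^ (2 : ℝ) by norm_num, ← Real.rpow_mul (by norm_num)]
      norm_num
    linarith
  have hMn : (M : ℝ) ^ (-s.re) ≤ 1 / u := by
    calc (M : ℝ) ^ (-s.re) ≤ (M : ℝ) ^ (-(1 / 2) : ℝ) := by
          apply Real.rpow_le_rpow_of_exponent_le (by linarith)
          linarith
      _ ≤ s.im ^ (-(1 / 2) : ℝ) := Real.rpow_le_rpow_of_nonpos him hMl (by norm_num)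
      _ = 1 / u := by rw [Real.rpow_neg him.le, ← hu, one_div]
  have h5 : ‖(Pool.Agent.H43.LF.rho (1 : DirichletCharacter ℂ 1) : ℂ) * (M : ℂ) ^ (1 - s) / (s - 1)‖ ≤
      2 * u := by
    rw [norm_div, norm_mul, Complex.norm_real, Real.norm_eq_abs,
      norm_natCast_cpow_of_pos (by omega)]
    have e1 : (M : ℝ) ^ (1 - s).re ≤ (M : ℝ) ^ (1 / 2 : ℝ) := by
      apply Real.rpow_le_rpow_of_exponent_le (by linarith)
      rw [sub_re, one_re]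
      linarith
    rw [div_le_iff₀ (by linarith)]
    calc |Pool.Agent.H43.LF.rho (1 : DirichletCharacter ℂ 1)| * (M : ℝ) ^ (1 - s).re
        ≤ 1 * (2 * u) := mul_le_mul hr (e1.trans hMs) (by positivity) zero_le_one
      _ ≤ 2 * u * ‖s - 1‖ := by nlinarith
  have h6 : 4 * ((1 : ℕ) : ℝ) * ‖s‖ * (M : ℝ) ^ (-s.re) / s.re ≤ 24 * u := by
    rw [div_le_iff₀ hre]
    calc 4 * ((1 : ℕ) : ℝ) * ‖s‖ * (M : ℝ) ^ (-s.re) ≤ 4 * ((1 : ℕ) : ℝ) * (3 * s.im) * (1 / u) := by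
          gcongr
      _ = 12 * u := by
          rw [← hu2]
          field_simp
          push_cast
          ring
      _ ≤ 24 * u * s.re := by nlinarith
  rw [← hu]
  have e7 : riemannZeta s = (riemannZeta s - ∑ n ∈ Icc 1 M, (1 : DirichletCharacter ℂ 1) n * (n : ℂ) ^ (-s) -
      (Pool.Agent.H43.LF.rho (1 : DirichletCharacter ℂ 1) : ℂ) * (M : ℂ) ^ (1 - s) / (s - 1)) +
      ∑ n ∈ Icc 1 M, (1 : DirichletCharacter ℂ 1) n * (n : ℂ) ^ (-s) +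
      (Pool.Agent.H43.LF.rho (1 : DirichletCharacter ℂ 1) : ℂ) * (M : ℂ) ^ (1 - s) / (s - 1) := by ring
  rw [e7]
  refine (norm_add₃_le).trans ?_
  linarith

end Pool.Agent.H49.ZM
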