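import Pool.Agent.H49.ZM.Ri
import Pool.Agent.H49.ZM.ZB

/-!
# [H49 ZM M1] The twisted first moment
-/

set_option autoImplicit false

namespace Pool.Agent.H49.ZM

open Complex Finset

/-- the integrand -/
noncomputable def ff (N : Finset ℕ) (v : ℝ) (s : ℂ) : ℂ :=
  riemannZeta (s + I * v) * BB N (s + I * v) ^ 2 * BB N s * BB N (1 - s)

theorem BB_diff {N : Finset ℕ} (hN : ∀ b ∈ N, b ≠ 0) : Differentiable ℂ (BB N) := by
  unfold BB
  refine Differentiable.fun_sum fun n hn => ?_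
  have hn0 : (n : ℂ) ≠ 0 := by exact_mod_cast hN n hn
  exact (differentiable_const _).mul (fun s => differentiableAt_id.neg.const_cpow (Or.inl hn0))

theorem card_le {N : Finset ℕ} {Y : ℕ} (hN : Cl N Y) : (N.card : ℝ) ≤ Y := by
  have h1 : N ⊆ Icc 1 Y := by
    intro b hb
    rw [mem_Icc]
    exact ⟨Nat.pos_of_ne_zero (hN.1 b hb).1.ne_zero, (hN.1 b hb).2⟩
  have h2 := card_le_card h1
  rw [Nat.card_Icc, Nat.add_sub_cancel] at h2
  exact_mod_cast h2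

theorem BB_norm {N : Finset ℕ} {Y : ℕ} (hN : Cl N Y) (s : ℂ) (hs : 0 ≤ s.re) : ‖BB N s‖ ≤ Y := by
  unfold BB
  refine (norm_sum_le _ _).trans ?_
  calc ∑ b ∈ N, ‖(bet b : ℂ) * (b : ℂ) ^ (-s)‖ ≤ ∑ b ∈ N, (1 : ℝ) := by
        refine sum_le_sum fun b hb => ?_
        have hb0 := (hN.1 b hb).1.ne_zero
        have hb1 : (1 : ℝ) ≤ b := by exact_mod_cast Nat.pos_of_ne_zero hb0
        rw [norm_mul, Complex.norm_real, Real.norm_eq_abs, norm_natCast_cpow_of_pos (Nat.pos_of_ne_zero hb0)]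
        have h2 : (b : ℝ) ^ (-s).re ≤ 1 := Real.rpow_le_one_of_one_le_of_nonpos hb1 (by simpa using hs)
        calc |bet b| * (b : ℝ) ^ (-s).re ≤ 1 * 1 :=
              mul_le_mul (abs_bet_le b) h2 (by positivity) zero_le_one
          _ = 1 := one_mul 1
    _ = N.card := by simp
    _ ≤ Y := card_le hN

theorem BB_norm' {N : Finset ℕ} {Y : ℕ} (hN : Cl N Y) (s : ℂ) (hs : -1 ≤ s.re) :
    ‖BB N s‖ ≤ (Y : ℝ) ^ 2 := by
  unfold BB
  refine (norm_sum_le _ _).trans ?_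
  calc ∑ b ∈ N, ‖(bet b : ℂ) * (b : ℂ) ^ (-s)‖ ≤ ∑ b ∈ N, (Y : ℝ) := by
        refine sum_le_sum fun b hb => ?_
        have hb0 := (hN.1 b hb).1.ne_zero
        have hb1 : (1 : ℝ) ≤ b := by exact_mod_cast Nat.pos_of_ne_zero hb0
        have hbY : (b : ℝ) ≤ Y := by exact_mod_cast (hN.1 b hb).2
        rw [norm_mul, Complex.norm_real, Real.norm_eq_abs, norm_natCast_cpow_of_pos (Nat.pos_of_ne_zero hb0)]
        have h2 : (b : ℝ) ^ (-s).re ≤ (b : ℝ) ^ (1 : ℝ) :=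
          Real.rpow_le_rpow_of_exponent_le hb1 (by rw [neg_re]; linarith)
        rw [Real.rpow_one] at h2
        calc |bet b| * (b : ℝ) ^ (-s).re ≤ 1 * Y :=
              mul_le_mul (abs_bet_le b) (h2.trans hbY) (by positivity) zero_le_one
          _ = Y := one_mul _
    _ = N.card * Y := by simp
    _ ≤ Y * Y := mul_le_mul_of_nonneg_right (card_le hN) (Nat.cast_nonneg _)
    _ = (Y : ℝ) ^ 2 := by ring

theorem ff_norm : ∃ C : ℝ, 0 < C ∧ ∀ (N : Finset ℕ) (Y : ℕ), Cl N Y → ∀ v : ℝ, 0 ≤ v → v ≤ 1 →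
    ∀ s : ℂ, 1 / 2 ≤ s.re → s.re ≤ 2 → 2 ≤ s.im → ‖ff N v s‖ ≤ C * s.im ^ (1 / 2 : ℝ) * (Y : ℝ) ^ 5 := by
  obtain ⟨C, hC, h⟩ := zeta_half
  refine ⟨2 * C, by positivity, fun N Y hN v hv0 hv1 s hs1 hs2 hs3 => ?_⟩
  have hre : (s + I * v).re = s.re := by simp
  have him : (s + I * v).im = s.im + v := by simp
  have h1 := h (s + I * v) (by rw [hre]; exact hs1) (by rw [hre]; linarith) (by rw [him]; linarith)
  rw [him] at h1
  have h2 : (s.im + v) ^ (1 / 2 : ℝ) ≤ 2 * s.im ^ (1 / 2 : ℝ) := by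
    calc (s.im + v) ^ (1 / 2 : ℝ) ≤ (4 * s.im) ^ (1 / 2 : ℝ) :=
          Real.rpow_le_rpow (by linarith) (by linarith) (by norm_num)
      _ = 2 * s.im ^ (1 / 2 : ℝ) := by
          rw [Real.mul_rpow (by norm_num) (by linarith)]
          congr 1
          rw [show (4 : ℝ) = 2 ^ (2 : ℝ) by norm_num, ← Real.rpow_mul (by norm_num)]
          norm_num
  have h3 := BB_norm hN (s + I * v) (by rw [hre]; linarith)
  have h4 := BB_norm hN s (by linarith)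
  have h5 := BB_norm' hN (1 - s) (by rw [sub_re, one_re]; linarith)
  unfold ff
  rw [norm_mul, norm_mul, norm_mul, norm_pow]
  have hsi : (0 : ℝ) ≤ s.im ^ (1 / 2 : ℝ) := Real.rpow_nonneg (by linarith) _
  calc ‖riemannZeta (s + I * v)‖ * ‖BB N (s + I * v)‖ ^ 2 * ‖BB N s‖ * ‖BB N (1 - s)‖
      ≤ (C * (2 * s.im ^ (1 / 2 : ℝ))) * (Y : ℝ) ^ 2 * Y * (Y : ℝ) ^ 2 := by
        gcongr
        exact h1.trans (by gcongr)
    _ = _ := by ring

theorem ff_diff {N : Finset ℕ} (hN : ∀ b ∈ N, b ≠ 0) (v : ℝ) (hv : 0 ≤ v) {s : ℂ} (hs : 0 < s.im) :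
    DifferentiableAt ℂ (ff N v) s := by
  have hne : s + I * v ≠ 1 := by
    intro h
    have : (s + I * v).im = 0 := by rw [h]; simp
    simp at this
    linarith
  have hB := BB_diff hN
  unfold ff
  have h1 : DifferentiableAt ℂ (fun s : ℂ => s + I * v) s := by fun_prop
  have h2 : DifferentiableAt ℂ (fun s : ℂ => 1 - s) s := by fun_prop
  exact ((((differentiableAt_riemannZeta hne).comp s h1).mul
    (((hB _).comp s h1).pow 2)).mul (hB s)).mul ((hB _).comp s h2)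

theorem m_one : ∃ C : ℝ, 0 < C ∧ ∀ (N : Finset ℕ) (Y : ℕ), Cl N Y → ∀ (v T1 T2 : ℝ), 0 ≤ v → v ≤ 1 →
    2 ≤ T1 → T1 ≤ T2 →
    ‖(∫ t in T1..T2, ff N v (1 / 2 + I * t)) - (((T2 - T1) * ∑ b ∈ N, bet b ^ 2 / b : ℝ) : ℂ)‖ ≤
      C * T2 ^ (1 / 2 : ℝ) * (Y : ℝ) ^ 5 := by
  obtain ⟨C1, hC1, hR⟩ := right_line
  obtain ⟨C2, hC2, hE⟩ := ff_norm
  refine ⟨C1 + 3 * C2, by positivity, fun N Y hN v T1 T2 hv0 hv1 hT1 hT12 => ?_⟩
  have hN0 : ∀ b ∈ N, b ≠ 0 := fun b hb => (hN.1 b hb).1.ne_zero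
  have hT2 : 2 ≤ T2 := hT1.trans hT12
  rcases Nat.eq_zero_or_pos Y with hY | hY
  · have hNe : N = ∅ := by
      rw [Finset.eq_empty_iff_forall_notMem]
      intro b hb
      have := (hN.1 b hb).2
      exact hN0 b hb (by omega)
    have : ∀ t : ℝ, ff N v (1 / 2 + I * t) = 0 := by
      intro t
      unfold ff BB
      rw [hNe]
      simp
    simp_rw [this, hNe]
    simp
    rw [hY]
    simp
  have hY1 : (1 : ℝ) ≤ Y := by exact_mod_cast hY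
  have hrect := Complex.integral_boundary_rect_eq_zero_of_differentiableOn (ff N v)
    ((1 / 2 : ℝ) + (T1 : ℝ) * I) ((2 : ℝ) + (T2 : ℝ) * I) (by
      intro s hs
      refine (ff_diff hN0 v hv0 ?_).differentiableWithinAt
      have h1 := hs.2
      simp only [Set.mem_preimage, add_im, ofReal_im, mul_im, ofReal_re, I_im, mul_one, I_re, mul_zero,
        add_zero, zero_add] at h1
      rw [Set.uIcc_of_le hT12] at h1
      linarith [h1.1])
  have e1 : (((1 / 2 : ℝ) : ℂ) + (T1 : ℝ) * I).re = 1 / 2 := by simp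
  have e2 : (((2 : ℝ) : ℂ) + (T2 : ℝ) * I).re = 2 := by simp
  have e3 : (((1 / 2 : ℝ) : ℂ) + (T1 : ℝ) * I).im = T1 := by simp
  have e4 : (((2 : ℝ) : ℂ) + (T2 : ℝ) * I).im = T2 := by simp
  rw [e1, e2, e3, e4] at hrect
  have hedge : ∀ T : ℝ, T1 ≤ T → T ≤ T2 →
      ‖∫ x in (1 / 2 : ℝ)..2, ff N v (x + T * I)‖ ≤ C2 * T2 ^ (1 / 2 : ℝ) * (Y : ℝ) ^ 5 * (3 / 2) := by
    intro T h1 h2
    have h3 := intervalIntegral.norm_integral_le_of_norm_le_const (a := (1 / 2 : ℝ)) (b := 2)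
      (f := fun x : ℝ => ff N v (x + T * I)) (C := C2 * T2 ^ (1 / 2 : ℝ) * (Y : ℝ) ^ 5) (by
        intro x hx
        rw [Set.uIoc_of_le (by norm_num)] at hx
        have h4 : ((x : ℂ) + T * I).re = x := by simp
        have h5 : ((x : ℂ) + T * I).im = T := by simp
        have h6 := hE N Y hN v hv0 hv1 ((x : ℂ) + T * I) (by rw [h4]; exact hx.1.le)
          (by rw [h4]; exact hx.2) (by rw [h5]; linarith)
        rw [h5] at h6
        refine h6.trans ?_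
        have : T ^ (1 / 2 : ℝ) ≤ T2 ^ (1 / 2 : ℝ) := Real.rpow_le_rpow (by linarith) h2 (by norm_num)
        gcongr)
    refine h3.trans (le_of_eq ?_)
    rw [abs_of_pos (by norm_num)]
    norm_num
  have e5 : ∫ y in T1..T2, ff N v (((2 : ℝ) : ℂ) + y * I) =
      ∫ t in T1..T2, riemannZeta (2 + I * t + I * v) * BB N (2 + I * t + I * v) ^ 2 *
        BB N (2 + I * t) * BB N (1 - (2 + I * t)) := by
    refine intervalIntegral.integral_congr fun t _ => ?_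
    have : ((2 : ℝ) : ℂ) + (t : ℂ) * I = 2 + I * t := by
      push_cast
      ring
    simp only [this]
    rfl
  have e6 : ∫ y in T1..T2, ff N v (((1 / 2 : ℝ) : ℂ) + y * I) =
      ∫ t in T1..T2, ff N v (1 / 2 + I * t) := by
    refine intervalIntegral.integral_congr fun t _ => ?_
    have : ((1 / 2 : ℝ) : ℂ) + (t : ℂ) * I = 1 / 2 + I * t := by
      push_cast
      ring
    simp only [this]
  rw [e5, e6] at hrect
  obtain ⟨R, hRd⟩ : ∃ R : ℂ, R = ∫ t in T1..T2, riemannZeta (2 + I * t + I * v) *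
    BB N (2 + I * t + I * v) ^ 2 * BB N (2 + I * t) * BB N (1 - (2 + I * t)) := ⟨_, rfl⟩
  obtain ⟨Lf, hLd⟩ : ∃ Lf : ℂ, Lf = ∫ t in T1..T2, ff N v (1 / 2 + I * t) := ⟨_, rfl⟩
  obtain ⟨A, hAd⟩ : ∃ A : ℂ, A = ∫ x in (1 / 2 : ℝ)..2, ff N v (x + T1 * I) := ⟨_, rfl⟩
  obtain ⟨B, hBd⟩ : ∃ B : ℂ, B = ∫ x in (1 / 2 : ℝ)..2, ff N v (x + T2 * I) := ⟨_, rfl⟩
  have hA := hedge T1 le_rfl hT12
  have hB := hedge T2 hT12 le_rfl
  have hRR := hR N Y hN v T1 T2 hT12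
  rw [← hAd] at hA
  rw [← hBd] at hB
  rw [← hRd] at hRR
  rw [← hAd, ← hBd, ← hRd, ← hLd] at hrect
  rw [← hLd]
  obtain ⟨M, hM⟩ : ∃ M : ℂ, M = (((T2 - T1) * ∑ b ∈ N, bet b ^ 2 / b : ℝ) : ℂ) := ⟨_, rfl⟩
  rw [← hM] at hRR ⊢
  have hI : I ≠ 0 := I_ne_zero
  have h7 : Lf - M = (R - M) + (-I) * (A - B) := by
    simp only [smul_eq_mul] at hrect
    have : I * Lf = A - B + I * R := by linear_combination -hrect
    have h8 : Lf = (-I) * (A - B + I * R) := by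
      rw [← this]
      ring_nf
      rw [I_sq]
      ring
    rw [h8]
    ring_nf
    rw [I_sq]
    ring
  rw [h7]
  have h9 : ‖(-I) * (A - B)‖ ≤ C2 * T2 ^ (1 / 2 : ℝ) * (Y : ℝ) ^ 5 * 3 := by
    rw [norm_mul, norm_neg, norm_I, one_mul]
    refine (norm_sub_le _ _).trans ?_
    linarith
  have h10 : C1 * (Y : ℝ) ^ 3 ≤ C1 * T2 ^ (1 / 2 : ℝ) * (Y : ℝ) ^ 5 := by
    have h11 : (1 : ℝ) ≤ T2 ^ (1 / 2 : ℝ) := Real.one_le_rpow (by linarith) (by norm_num)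
    have h12 : (Y : ℝ) ^ 3 ≤ (Y : ℝ) ^ 5 := pow_le_pow_right₀ hY1 (by norm_num)
    calc C1 * (Y : ℝ) ^ 3 ≤ C1 * (Y : ℝ) ^ 5 := by gcongr
      _ = C1 * 1 * (Y : ℝ) ^ 5 := by ring
      _ ≤ C1 * T2 ^ (1 / 2 : ℝ) * (Y : ℝ) ^ 5 := by gcongr
  refine (norm_add_le _ _).trans ?_
  calc ‖R - M‖ + ‖(-I) * (A - B)‖ ≤ C1 * T2 ^ (1 / 2 : ℝ) * (Y : ℝ) ^ 5 +
        C2 * T2 ^ (1 / 2 : ℝ) * (Y : ℝ) ^ 5 * 3 := add_le_add (hRR.trans h10) h9
    _ = _ := by ring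

end Pool.Agent.H49.ZM
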