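import Pool.Agent.H49.ZM.Id

/-!
# [H49 ZM RI] The integral over the line `Re s = 2`
-/

set_option autoImplicit false

namespace Pool.Agent.H49.ZM

open Complex Finset

/-- the oscillating integral -/
noncomputable def JJ (T1 T2 θ : ℝ) : ℂ := ∫ t in T1..T2, cexp (((t * θ : ℝ) : ℂ) * I)

theorem JJ_zero (T1 T2 : ℝ) : JJ T1 T2 0 = ((T2 - T1 : ℝ) : ℂ) := by
  unfold JJ
  simp

theorem JJ_norm (T1 T2 θ : ℝ) (hθ : θ ≠ 0) : ‖JJ T1 T2 θ‖ ≤ 2 / |θ| := by
  unfold JJ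
  have hc : ((θ : ℝ) : ℂ) * I ≠ 0 := by
    simp [hθ]
  have e1 : (fun t : ℝ => cexp (((t * θ : ℝ) : ℂ) * I)) = fun t : ℝ => cexp (((θ : ℝ) : ℂ) * I * t) := by
    funext t
    congr 1
    push_cast
    ring
  rw [e1, integral_exp_mul_complex hc, norm_div, norm_mul, norm_I, mul_one, Complex.norm_real,
    Real.norm_eq_abs]
  have hE : ∀ T : ℝ, ‖cexp (((θ : ℝ) : ℂ) * I * T)‖ = 1 := by
    intro T
    have : ((θ : ℝ) : ℂ) * I * T = ((θ * T : ℝ) : ℂ) * I := by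
      push_cast
      ring
    rw [this, norm_exp_ofReal_mul_I]
  have h2 := norm_sub_le (cexp (((θ : ℝ) : ℂ) * I * T2)) (cexp (((θ : ℝ) : ℂ) * I * T1))
  rw [hE, hE] at h2
  have hθ0 : 0 < |θ| := abs_pos.2 hθ
  gcongr
  linarith

/-- logarithms of ratios of distinct natural numbers -/
theorem log_ratio {b n : ℕ} (hb : b ≠ 0) (hn : n ≠ 0) (h : b ≠ n) :
    1 / (2 * (b : ℝ)) ≤ |Real.log ((b : ℝ) / n)| := by
  have hb0 : (0 : ℝ) < b := by exact_mod_cast Nat.pos_of_ne_zero hb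
  have hb1 : (1 : ℝ) ≤ b := by exact_mod_cast Nat.pos_of_ne_zero hb
  have hn0 : (0 : ℝ) < n := by exact_mod_cast Nat.pos_of_ne_zero hn
  rcases lt_or_gt_of_ne h with h1 | h1
  · have h2 : (b : ℝ) + 1 ≤ n := by exact_mod_cast h1
    have h3 : Real.log ((b : ℝ) / n) ≤ (b : ℝ) / n - 1 := Real.log_le_sub_one_of_pos (by positivity)
    have h4 : (b : ℝ) / n - 1 ≤ -(1 / (2 * (b : ℝ))) := by
      have h5 : (b : ℝ) / n ≤ b / (b + 1) := by gcongr
      have h6 : (b : ℝ) / (b + 1) - 1 ≤ -(1 / (2 * (b : ℝ))) := by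
        have e : (b : ℝ) / (b + 1) - 1 = -(1 / (b + 1)) := by
          field_simp
          ring
        rw [e, neg_le_neg_iff]
        gcongr
        linarith
      linarith
    rw [abs_of_nonpos (by have : 0 < 1 / (2 * (b : ℝ)) := by positivity
                          linarith)]
    linarith
  · have h2 : (n : ℝ) + 1 ≤ b := by exact_mod_cast h1
    have h3 : Real.log ((n : ℝ) / b) ≤ (n : ℝ) / b - 1 := Real.log_le_sub_one_of_pos (by positivity)
    have h4 : (n : ℝ) / b - 1 ≤ -(1 / (2 * (b : ℝ))) := by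
      have h5 : (n : ℝ) / b ≤ (b - 1) / b := by
        gcongr
        linarith
      have h6 : ((b : ℝ) - 1) / b - 1 ≤ -(1 / (2 * (b : ℝ))) := by
        have e : ((b : ℝ) - 1) / b - 1 = -(1 / b) := by
          field_simp
          ring
        rw [e, neg_le_neg_iff]
        gcongr
        linarith
      linarith
    have h7 : Real.log ((b : ℝ) / n) = -Real.log ((n : ℝ) / b) := by
      rw [← Real.log_inv, inv_div]
    rw [h7, abs_neg, abs_of_nonpos (by have : 0 < 1 / (2 * (b : ℝ)) := by positivity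
                                       linarith)]
    linarith

theorem JJ_ratio (T1 T2 : ℝ) {b n : ℕ} (hb : b ≠ 0) (hn : n ≠ 0) (h : b ≠ n) :
    ‖JJ T1 T2 (Real.log ((b : ℝ) / n))‖ ≤ 4 * b := by
  have hb0 : (0 : ℝ) < b := by exact_mod_cast Nat.pos_of_ne_zero hb
  have h1 := log_ratio hb hn h
  have h2 : 0 < 1 / (2 * (b : ℝ)) := by positivity
  have h3 : Real.log ((b : ℝ) / n) ≠ 0 := by
    intro h0
    rw [h0, abs_zero] at h1
    linarith
  refine (JJ_norm T1 T2 _ h3).trans ?_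
  rw [div_le_iff₀ (by linarith)]
  calc (2 : ℝ) = 4 * b * (1 / (2 * b)) := by
        field_simp
        norm_num
    _ ≤ 4 * b * |Real.log ((b : ℝ) / n)| := by gcongr

theorem cpow_exp {n : ℕ} (hn : n ≠ 0) (a t : ℝ) :
    (n : ℂ) ^ ((a : ℂ) + I * t) = (((n : ℝ) ^ a : ℝ) : ℂ) * cexp (((t * Real.log n : ℝ) : ℂ) * I) := by
  have hn' : (n : ℂ) ≠ 0 := by exact_mod_cast hn
  rw [cpow_add _ _ hn', ofReal_cpow (Nat.cast_nonneg n), ofReal_natCast]
  congr 1
  rw [cpow_def_of_ne_zero hn', ← natCast_log]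
  congr 1
  push_cast
  ring

/-- the product of the two powers -/
theorem pow_two_line {b n : ℕ} (hb : b ≠ 0) (hn : n ≠ 0) (t : ℝ) :
    (n : ℂ) ^ (-(2 + I * t) : ℂ) * (b : ℂ) ^ (-(1 - (2 + I * t)) : ℂ) =
      (((b : ℝ) * ((n : ℝ) ^ 2)⁻¹ : ℝ) : ℂ) * cexp (((t * Real.log ((b : ℝ) / n) : ℝ) : ℂ) * I) := by
  have hb0 : (0 : ℝ) < b := by exact_mod_cast Nat.pos_of_ne_zero hb
  have hn0 : (0 : ℝ) < n := by exact_mod_cast Nat.pos_of_ne_zero hn
  have e1 : (-(2 + I * t) : ℂ) = (((-2 : ℝ) : ℝ) : ℂ) + I * ((-t : ℝ) : ℂ) := by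
    push_cast
    ring
  have e2 : (-(1 - (2 + I * t)) : ℂ) = (((1 : ℝ) : ℝ) : ℂ) + I * ((t : ℝ) : ℂ) := by
    push_cast
    ring
  rw [e1, e2, cpow_exp hn, cpow_exp hb, Real.rpow_one, Real.rpow_neg hn0.le, Real.rpow_two]
  have e3 : cexp (((t * Real.log ((b : ℝ) / n) : ℝ) : ℂ) * I) =
      cexp (((-t * Real.log n : ℝ) : ℂ) * I) * cexp (((t * Real.log b : ℝ) : ℂ) * I) := by
    rw [← Complex.exp_add]
    congr 1
    rw [Real.log_div hb0.ne' hn0.ne']
    push_cast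
    ring
  rw [e3]
  push_cast
  ring

theorem right_line : ∃ C : ℝ, 0 < C ∧ ∀ (N : Finset ℕ) (Y : ℕ), Cl N Y → ∀ (v T1 T2 : ℝ), T1 ≤ T2 →
    ‖(∫ t in T1..T2, riemannZeta (2 + I * t + I * v) * BB N (2 + I * t + I * v) ^ 2 *
        BB N (2 + I * t) * BB N (1 - (2 + I * t))) -
      (((T2 - T1) * ∑ b ∈ N, bet b ^ 2 / b : ℝ) : ℂ)‖ ≤ C * (Y : ℝ) ^ 3 := by
  obtain ⟨K, hK, hbd⟩ := cc_bound
  refine ⟨4 * K, by positivity, fun N Y hN v T1 T2 h12 => ?_⟩
  obtain ⟨hc1, hc2⟩ := hbd N v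
  have hN0 : ∀ b ∈ N, b ≠ 0 := fun b hb => (hN.1 b hb).1.ne_zero
  have hser := cc_series N hN0 v
  set c : ℕ → ℂ := fun n => cc N v n with hc
  have hc0 : c 0 = 0 := ArithmeticFunction.map_zero
  set F : ℕ → ℝ → ℂ := fun n t => ∑ b ∈ N,
    c n * (bet b : ℂ) * ((n : ℂ) ^ (-(2 + I * t) : ℂ) * (b : ℂ) ^ (-(1 - (2 + I * t)) : ℂ)) with hF
  set G : ℕ → ℂ := fun n => ∑ b ∈ N,
    c n * (bet b : ℂ) * ((((b : ℝ) * ((n : ℝ) ^ 2)⁻¹ : ℝ) : ℂ) * JJ T1 T2 (Real.log ((b : ℝ) / n)))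
    with hG
  have hFe : ∀ n : ℕ, ∀ t : ℝ, F n t = ∑ b ∈ N, c n * (bet b : ℂ) *
      ((((b : ℝ) * ((n : ℝ) ^ 2)⁻¹ : ℝ) : ℂ) * cexp (((t * Real.log ((b : ℝ) / n) : ℝ) : ℂ) * I)) := by
    intro n t
    rcases eq_or_ne n 0 with rfl | hn
    · simp only [hF, hc0, zero_mul, sum_const_zero]
    · simp only [hF]
      refine sum_congr rfl fun b hb => ?_
      rw [pow_two_line (hN0 b hb) hn]
  have hcont : ∀ n : ℕ, Continuous (F n) := by
    intro n
    have : F n = fun t => ∑ b ∈ N, c n * (bet b : ℂ) *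
      ((((b : ℝ) * ((n : ℝ) ^ 2)⁻¹ : ℝ) : ℂ) * cexp (((t * Real.log ((b : ℝ) / n) : ℝ) : ℂ) * I)) := by
      funext t
      exact hFe n t
    rw [this]
    fun_prop
  have hint : ∀ n : ℕ, ∫ t in T1..T2, F n t = G n := by
    intro n
    have : F n = fun t => ∑ b ∈ N, c n * (bet b : ℂ) *
      ((((b : ℝ) * ((n : ℝ) ^ 2)⁻¹ : ℝ) : ℂ) * cexp (((t * Real.log ((b : ℝ) / n) : ℝ) : ℂ) * I)) := by
      funext t
      exact hFe n t
    rw [this, intervalIntegral.integral_finsetSum]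
    · simp only [hG]
      refine sum_congr rfl fun b _ => ?_
      rw [intervalIntegral.integral_const_mul, intervalIntegral.integral_const_mul]
      rfl
    · intro b _
      exact Continuous.intervalIntegrable (by fun_prop) _ _
  have hY : ∀ b ∈ N, (b : ℝ) ≤ Y := fun b hb => by exact_mod_cast (hN.1 b hb).2
  have hcard : (N.card : ℝ) ≤ Y := by
    have h1 : N ⊆ Icc 1 Y := by
      intro b hb
      rw [mem_Icc]
      exact ⟨Nat.pos_of_ne_zero (hN0 b hb), (hN.1 b hb).2⟩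
    have h2 := card_le_card h1
    rw [Nat.card_Icc, Nat.add_sub_cancel] at h2
    exact_mod_cast h2
  have hnorm : ∀ n : ℕ, ∀ t : ℝ, ‖F n t‖ ≤ ‖c n‖ * ((n : ℝ) ^ 2)⁻¹ * (Y * Y) := by
    intro n t
    rw [hFe n t]
    refine (norm_sum_le _ _).trans ?_
    calc ∑ b ∈ N, ‖c n * (bet b : ℂ) * ((((b : ℝ) * ((n : ℝ) ^ 2)⁻¹ : ℝ) : ℂ) *
            cexp (((t * Real.log ((b : ℝ) / n) : ℝ) : ℂ) * I))‖
        ≤ ∑ b ∈ N, ‖c n‖ * ((n : ℝ) ^ 2)⁻¹ * Y := by
          refine sum_le_sum fun b hb => ?_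
          rw [norm_mul, norm_mul, norm_mul, norm_exp_ofReal_mul_I, mul_one, Complex.norm_real,
            Complex.norm_real, Real.norm_eq_abs, Real.norm_eq_abs,
            abs_of_nonneg (by positivity : (0 : ℝ) ≤ (b : ℝ) * ((n : ℝ) ^ 2)⁻¹)]
          calc ‖c n‖ * |bet b| * ((b : ℝ) * ((n : ℝ) ^ 2)⁻¹)
              ≤ ‖c n‖ * 1 * (Y * ((n : ℝ) ^ 2)⁻¹) := by
                gcongr
                · exact abs_bet_le b
                · exact (hN.1 b hb).2
            _ = _ := by ring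
      _ = (N.card : ℝ) * (‖c n‖ * ((n : ℝ) ^ 2)⁻¹ * Y) := by
          rw [sum_const, nsmul_eq_mul]
      _ ≤ Y * (‖c n‖ * ((n : ℝ) ^ 2)⁻¹ * Y) := by gcongr
      _ = _ := by ring
  have hsum : HasSum G (∫ t in T1..T2, riemannZeta (2 + I * t + I * v) *
      BB N (2 + I * t + I * v) ^ 2 * BB N (2 + I * t) * BB N (1 - (2 + I * t))) := by
    have e : G = fun n => ∫ t in T1..T2, F n t := by
      funext n
      rw [hint n]
    rw [e]
    refine intervalIntegral.hasSum_integral_of_dominated_convergence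
      (fun n _ => ‖c n‖ * ((n : ℝ) ^ 2)⁻¹ * (Y * Y)) ?_ ?_ ?_ ?_ ?_
    · intro n
      exact (hcont n).aestronglyMeasurable
    · intro n
      exact Filter.Eventually.of_forall fun t _ => hnorm n t
    · exact Filter.Eventually.of_forall fun t _ => hc1.mul_right _
    · exact intervalIntegrable_const
    · refine Filter.Eventually.of_forall fun t _ => ?_
      have hs : Summable fun n : ℕ => c n * (n : ℂ) ^ (-(2 + I * t) : ℂ) := by
        refine Summable.of_norm_bounded hc1 fun n => ?_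
        rcases eq_or_ne n 0 with rfl | hn
        · simp [hc0]
        · rw [norm_mul, norm_natCast_cpow_of_pos (Nat.pos_of_ne_zero hn)]
          have e1 : (-(2 + I * (t : ℂ))).re = -2 := by simp
          rw [e1, Real.rpow_neg (Nat.cast_nonneg n), Real.rpow_two]
      have hS := hs.hasSum
      rw [← hser (2 + I * t) (by simp)] at hS
      have hS2 := hS.mul_right (BB N (1 - (2 + I * t)))
      have hfun : (fun n => F n t) = fun n : ℕ => c n * (n : ℂ) ^ (-(2 + I * t) : ℂ) *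
          BB N (1 - (2 + I * t)) := by
        funext n
        simp only [hF]
        unfold BB
        rw [mul_sum]
        refine sum_congr rfl fun b _ => ?_
        ring
      rw [hfun]
      exact hS2
  set M : ℕ → ℂ := fun n => if n ∈ N then c n * (bet n : ℂ) *
    ((((n : ℝ) * ((n : ℝ) ^ 2)⁻¹ : ℝ) : ℂ) * ((T2 - T1 : ℝ) : ℂ)) else 0 with hM
  have hMsum : HasSum M (((T2 - T1) * ∑ b ∈ N, bet b ^ 2 / b : ℝ) : ℂ) := by
    have h1 : (((T2 - T1) * ∑ b ∈ N, bet b ^ 2 / b : ℝ) : ℂ) = ∑ n ∈ N, M n := by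
      push_cast
      rw [mul_sum]
      refine sum_congr rfl fun n hn => ?_
      simp only [hM]
      rw [if_pos hn]
      have h2 : c n = bet n := cc_id hN v hn
      rw [h2]
      have hn0 : (n : ℂ) ≠ 0 := by exact_mod_cast hN0 n hn
      push_cast
      field_simp
    rw [h1]
    refine hasSum_sum_of_ne_finset_zero fun n hn => ?_
    simp only [hM]
    rw [if_neg hn]
  have hdiff := hsum.sub hMsum
  have hterm : ∀ n : ℕ, ‖G n - M n‖ ≤ ‖c n‖ * ((n : ℝ) ^ 2)⁻¹ * (4 * Y ^ 3) := by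
    intro n
    rcases eq_or_ne n 0 with rfl | hn
    · simp [hG, hM, hc0]
    have h1 : G n - M n = ∑ b ∈ N.erase n, c n * (bet b : ℂ) *
        ((((b : ℝ) * ((n : ℝ) ^ 2)⁻¹ : ℝ) : ℂ) * JJ T1 T2 (Real.log ((b : ℝ) / n))) := by
      simp only [hG, hM]
      by_cases hnN : n ∈ N
      · rw [if_pos hnN, ← Finset.add_sum_erase N _ hnN]
        have h2 : Real.log ((n : ℝ) / n) = 0 := by
          rw [div_self (by exact_mod_cast hn), Real.log_one]
        rw [h2, JJ_zero]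
        ring
      · rw [if_neg hnN, sub_zero, Finset.erase_eq_of_notMem hnN]
    rw [h1]
    refine (norm_sum_le _ _).trans ?_
    calc ∑ b ∈ N.erase n, ‖c n * (bet b : ℂ) *
            ((((b : ℝ) * ((n : ℝ) ^ 2)⁻¹ : ℝ) : ℂ) * JJ T1 T2 (Real.log ((b : ℝ) / n)))‖
        ≤ ∑ b ∈ N.erase n, ‖c n‖ * ((n : ℝ) ^ 2)⁻¹ * (4 * Y ^ 2) := by
          refine sum_le_sum fun b hb => ?_
          rw [mem_erase] at hb
          rw [norm_mul, norm_mul, norm_mul, Complex.norm_real,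
            Complex.norm_real, Real.norm_eq_abs, Real.norm_eq_abs,
            abs_of_nonneg (by positivity : (0 : ℝ) ≤ (b : ℝ) * ((n : ℝ) ^ 2)⁻¹)]
          calc ‖c n‖ * |bet b| * ((b : ℝ) * ((n : ℝ) ^ 2)⁻¹ *
                ‖JJ T1 T2 (Real.log ((b : ℝ) / n))‖)
              ≤ ‖c n‖ * 1 * (Y * ((n : ℝ) ^ 2)⁻¹ * (4 * Y)) := by
                gcongr
                · exact abs_bet_le b
                · exact (hN.1 b hb.2).2
                · exact (JJ_ratio T1 T2 (hN0 b hb.2) hn hb.1).trans (by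
                    have := hY b hb.2
                    linarith)
            _ = _ := by ring
      _ = ((N.erase n).card : ℝ) * (‖c n‖ * ((n : ℝ) ^ 2)⁻¹ * (4 * Y ^ 2)) := by
          rw [sum_const, nsmul_eq_mul]
      _ ≤ Y * (‖c n‖ * ((n : ℝ) ^ 2)⁻¹ * (4 * Y ^ 2)) := by
          have h3 : ((N.erase n).card : ℝ) ≤ Y :=
            le_trans (by exact_mod_cast Finset.card_erase_le) hcard
          gcongr
      _ = _ := by ring
  have hfin : ‖∑' n, (G n - M n)‖ ≤ ∑' n, ‖c n‖ * ((n : ℝ) ^ 2)⁻¹ * (4 * Y ^ 3) :=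
    tsum_of_norm_bounded (hc1.mul_right _).hasSum hterm
  rw [hdiff.tsum_eq] at hfin
  refine hfin.trans ?_
  rw [tsum_mul_right]
  calc (∑' n, ‖c n‖ * ((n : ℝ) ^ 2)⁻¹) * (4 * (Y : ℝ) ^ 3) ≤ K * (4 * (Y : ℝ) ^ 3) := by gcongr
    _ = 4 * K * (Y : ℝ) ^ 3 := by ring

end Pool.Agent.H49.ZM
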